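import Pool.Agent.P8H16.LG5

/-!
# Montgomery's large value conjecture: forms without coefficients, and the completeness of the duality method

`D(t) = ∑_{N ≤ n ≤ 2N} b_n n^{it}`, and `W` is a set of integers in `[0, N^A]`, for a fixed `A > 1`. Q1 for `A` is
equivalent to each of the following, each of them for all `W`, or only for all `W` with exactly `N` elements
(then `N |W|^{1/2} + N^{1/2} |W| = 2 N^{3/2}` and `(N + |W|) N = 2 N²`); `ε > 0` is arbitrary and `C = C(A, ε)`.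

* Q1 when the coefficients `b_n` have two values only, the same for all `n`.
* `|∑_{n ∈ I} ∑_{t ∈ W} n^{it}| ≤ C N^ε (N |W|^{1/2} + N^{1/2} |W|)` for all sets `I` of integers in `[N, 2N]`.
* `∑_{N ≤ n ≤ 2N} |∑_{t ∈ W} n^{it}| ≤ C N^ε (N |W|^{1/2} + N^{1/2} |W|)`.
* `|∑_{t ∈ W} n^{it}| > x` for at most `C N^ε (N |W|^{1/2} + N^{1/2} |W|) / x` integers `n` of `[N, 2N]`, for all `x > 0`.
* `∑_{t ∈ W} |D(t)|² ≤ C N^ε (N + |W|) N` if `|b_n| ≤ 1`.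
* For each `W` there is a probability vector `μ` on `[N, 2N]` with
  `∑_{t ∈ W} |D(t)|² ≤ C N^ε (N + |W|) N ∑ μ_n |b_n|²` for ALL coefficients.
* The method of Halász and Montgomery with an optimal weight works: for each `W` there are `ν_n > 0` with
  `∑ 1/ν_n ≤ N` such that the matrix `(∑_n ν_n n^{i(t-t')})`, `t, t' ∈ W`, has norm at most `C N^ε (N + |W|)`.
* The large sieve inequality normalized in `ℓ²` (false by Bourgain) holds up to few `n`: for all `W` and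
  `0 < δ ≤ 1` there is a set `E` of at most `δ N` integers with
  `∑_{t ∈ W} |∑_{n ∉ E} b_n n^{it}|² ≤ C N^ε δ^{-1} (N + |W|) ∑_{n ∉ E} |b_n|²` for ALL coefficients.
-/

set_option autoImplicit false

namespace Pool.Agent.Results.MP_ecd12e_nt.DualityIsComplete

open Finset

/-- `n^{it}` -/
noncomputable def ch (n : ℕ) (t : ℝ) : ℂ := Complex.exp (((t * Real.log n : ℝ) : ℂ) * Complex.I)

/-- `∑_{n ∈ I} b_n n^{it}` -/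
noncomputable def D (I : Finset ℕ) (b : ℕ → ℂ) (t : ℝ) : ℂ := ∑ n ∈ I, b n * ch n t

/-- Q1 for the exponent `A` and for the coefficients `b` with `Cf N b` -/
def Q1 (A : ℝ) (Cf : ℕ → (ℕ → ℂ) → Prop) : Prop := ∀ σ : ℝ, 1 / 2 < σ → ∀ ε : ℝ, 0 < ε → ∃ C : ℝ,
  ∀ (N : ℕ) (T : ℝ) (b : ℕ → ℂ) (W : Finset ℤ), 1 ≤ N → (N : ℝ) ≤ T → T ≤ (N : ℝ) ^ A → Cf N b →
    (∀ t ∈ W, 0 ≤ (t : ℝ) ∧ (t : ℝ) ≤ T ∧ (N : ℝ) ^ σ < ‖D (Icc N (2 * N)) b t‖) →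
    (W.card : ℝ) ≤ C * (N : ℝ) ^ (2 - 2 * σ + ε)

/-- the coefficients of the problem: `|b_n| ≤ 1` -/
def Bounded (N : ℕ) (b : ℕ → ℂ) : Prop := ∀ n ∈ Icc N (2 * N), ‖b n‖ ≤ 1

/-- coefficients with the values `s₁`, `s₂` -/
def TwoValues (s₁ s₂ : ℂ) (N : ℕ) (b : ℕ → ℂ) : Prop := ∀ n ∈ Icc N (2 * N), b n = s₁ ∨ b n = s₂

/-- `W` is a set of integers in `[0, N^A]` -/
def Pts (A : ℝ) (N : ℕ) (W : Finset ℤ) : Prop := ∀ t ∈ W, 0 ≤ (t : ℝ) ∧ (t : ℝ) ≤ (N : ℝ) ^ A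

/-- `W` is a set of `N` integers in `[0, N^A]` -/
def Crit (A : ℝ) (N : ℕ) (W : Finset ℤ) : Prop := Pts A N W ∧ W.card = N

/-- the bilinear form at indicator functions -/
def Cut (P : ℕ → Finset ℤ → Prop) : Prop := ∀ ε : ℝ, 0 < ε → ∃ C : ℝ,
  ∀ (N : ℕ) (I : Finset ℕ) (W : Finset ℤ), 1 ≤ N → I ⊆ Icc N (2 * N) → P N W →
    ‖∑ n ∈ I, ∑ t ∈ W, ch n t‖ ≤ C * (N : ℝ) ^ ε * (N * Real.sqrt W.card + Real.sqrt N * W.card)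

/-- the mean of the dual sum -/
def L1 (P : ℕ → Finset ℤ → Prop) : Prop := ∀ ε : ℝ, 0 < ε → ∃ C : ℝ, ∀ (N : ℕ) (W : Finset ℤ), 1 ≤ N → P N W →
  ∑ n ∈ Icc N (2 * N), ‖∑ t ∈ W, ch n t‖ ≤ C * (N : ℝ) ^ ε * (N * Real.sqrt W.card + Real.sqrt N * W.card)

/-- the large values of the dual sum -/
def Lev (P : ℕ → Finset ℤ → Prop) : Prop := ∀ ε : ℝ, 0 < ε → ∃ C : ℝ,
  ∀ (N : ℕ) (W : Finset ℤ) (x : ℝ), 1 ≤ N → P N W → 0 < x →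
    (((Icc N (2 * N)).filter fun n => x < ‖∑ t ∈ W, ch n t‖).card : ℝ) ≤
      C * (N : ℝ) ^ ε * (N * Real.sqrt W.card + Real.sqrt N * W.card) / x

/-- the mean square of `D` for bounded coefficients -/
def MeanSquare (P : ℕ → Finset ℤ → Prop) : Prop := ∀ ε : ℝ, 0 < ε → ∃ C : ℝ,
  ∀ (N : ℕ) (b : ℕ → ℂ) (W : Finset ℤ), 1 ≤ N → P N W → (∀ n ∈ Icc N (2 * N), ‖b n‖ ≤ 1) →
    ∑ t ∈ W, ‖D (Icc N (2 * N)) b t‖ ^ 2 ≤ C * (N : ℝ) ^ ε * ((N + W.card) * N)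

/-- the large sieve for all coefficients with a probability vector depending on `W` -/
def Weights (P : ℕ → Finset ℤ → Prop) : Prop := ∀ ε : ℝ, 0 < ε → ∃ C : ℝ, ∀ (N : ℕ) (W : Finset ℤ), 1 ≤ N → P N W →
  ∃ μ : ℕ → ℝ, (∀ n, 0 ≤ μ n) ∧ ∑ n ∈ Icc N (2 * N), μ n = 1 ∧
    ∀ b : ℕ → ℂ, ∑ t ∈ W, ‖D (Icc N (2 * N)) b t‖ ^ 2 ≤
      C * (N : ℝ) ^ ε * ((N + W.card) * N) * ∑ n ∈ Icc N (2 * N), μ n * ‖b n‖ ^ 2

/-- the duality method with a weight `ν` depending on `W`, `∑ 1/ν_n ≤ N`: a bound for the quadratic form of the matrix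
`(∑_n ν_n n^{i(t-t')})` -/
def Duality (P : ℕ → Finset ℤ → Prop) : Prop := ∀ ε : ℝ, 0 < ε → ∃ C : ℝ, ∀ (N : ℕ) (W : Finset ℤ), 1 ≤ N → P N W →
  ∃ ν : ℕ → ℝ, (∀ n, 0 < ν n) ∧ ∑ n ∈ Icc N (2 * N), (ν n)⁻¹ ≤ N ∧
    ∀ a : ℤ → ℂ, ∑ n ∈ Icc N (2 * N), ν n * ‖∑ t ∈ W, a t * ch n t‖ ^ 2 ≤
      C * (N : ℝ) ^ ε * (N + W.card) * ∑ t ∈ W, ‖a t‖ ^ 2

/-- the large sieve for all coefficients outside a set of at most `δ N` integers -/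
def OffFew (P : ℕ → Finset ℤ → Prop) : Prop := ∀ ε : ℝ, 0 < ε → ∃ C : ℝ,
  ∀ (N : ℕ) (W : Finset ℤ) (δ : ℝ), 1 ≤ N → P N W → 0 < δ → δ ≤ 1 →
    ∃ E : Finset ℕ, E ⊆ Icc N (2 * N) ∧ (E.card : ℝ) ≤ δ * N ∧
      ∀ b : ℕ → ℂ, ∑ t ∈ W, ‖D (Icc N (2 * N) \ E) b t‖ ^ 2 ≤
        C * (N : ℝ) ^ ε * δ⁻¹ * (N + W.card) * ∑ n ∈ Icc N (2 * N) \ E, ‖b n‖ ^ 2

theorem result :
    -- Q1 for `A > 1` is equivalent to each of the following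
    (∀ A : ℝ, 1 < A →
      -- two arbitrary values of the coefficients are enough
      (∀ s₁ s₂ : ℂ, ‖s₁‖ ≤ 1 → ‖s₂‖ ≤ 1 → s₁ ≠ s₂ → (Q1 A Bounded ↔ Q1 A (TwoValues s₁ s₂))) ∧
      -- all the `W`, or only the `W` with `N` elements
      (∀ P : ℕ → Finset ℤ → Prop, (P = Pts A ∨ P = Crit A) →
        (Q1 A Bounded ↔ Cut P) ∧ (Q1 A Bounded ↔ L1 P) ∧ (Q1 A Bounded ↔ Lev P) ∧ (Q1 A Bounded ↔ MeanSquare P) ∧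
        (Q1 A Bounded ↔ Weights P) ∧ (Q1 A Bounded ↔ Duality P) ∧ (Q1 A Bounded ↔ OffFew P))) ∧
    -- the problem asks for all `A ≥ 1`
    ((∀ A : ℝ, 1 ≤ A → Q1 A Bounded) ↔ ∀ A : ℝ, 1 < A → Q1 A Bounded) ∧
    -- the weight and the exceptional sets for one arbitrary finite set `W` of reals
    (∀ (N : ℕ) (W : Finset ℝ) (M : ℝ), 1 ≤ N →
      (∀ b : ℕ → ℂ, (∀ n ∈ Icc N (2 * N), ‖b n‖ ≤ 1) → ∑ t ∈ W, ‖D (Icc N (2 * N)) b t‖ ^ 2 ≤ M) →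
      ∃ μ : ℕ → ℝ, (∀ n, 0 ≤ μ n) ∧ ∑ n ∈ Icc N (2 * N), μ n = 1 ∧
        (∀ b : ℕ → ℂ, ∑ t ∈ W, ‖D (Icc N (2 * N)) b t‖ ^ 2 ≤
          96 * M * ∑ n ∈ Icc N (2 * N), μ n * ‖b n‖ ^ 2) ∧
        ∀ δ : ℝ, 0 < δ → ∃ E : Finset ℕ, E ⊆ Icc N (2 * N) ∧ (E.card : ℝ) ≤ δ * N ∧
          ∀ b : ℕ → ℂ, ∑ t ∈ W, ‖D (Icc N (2 * N) \ E) b t‖ ^ 2 ≤
            96 * M / (δ * N) * ∑ n ∈ Icc N (2 * N) \ E, ‖b n‖ ^ 2) := by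
  refine ⟨fun A hA => ?_, Pool.Agent.P8H16.LG.all_iff, fun N W M hN hM => Pool.Agent.P8H16.LG.local_form N hN W M hM⟩
  exact Pool.Agent.P8H16.LG.tfae A hA

end Pool.Agent.Results.MP_ecd12e_nt.DualityIsComplete
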