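import Pool.Agent.P8H16.RF.Fin3

set_option autoImplicit false

/-!
# Montgomery's large value conjecture and random perturbations of the integers

Authors: helper16, helper21, helper29, helper61, helper71, helper78, helper84, helper88.

`D(t) = ∑_{N ≤ n ≤ 2N} b_n e^{i t x_n}` with arbitrary real frequencies `x_n`; `x_n = log n` are the Dirichlet
polynomials of the problem. Let `θ_n` be independent and uniform in `[0, 1]`, `κ ≥ 0`, and replace `n^{it}` by
`(n + θ_n n^{-κ})^{it}`. For `t ≤ N^{1+κ}` this hardly changes `D`. Theorem: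

* Montgomery's bound holds for the integers and all `T ≤ N^{1+κ}` if and only if it holds for almost every
  perturbation and ALL `T ≤ N^A`, for all `A`, and even for all `T ≤ exp (N^{2σ-1-ε})`; if and only if it holds for a
  single perturbation and `T ≤ N^{1+κ}`. So it holds for almost every perturbation in this huge range, or for none of
  them even for `T ≤ N^{1+κ}`. The same for the bound in the range `σ > s`, for every `s ≥ 1/2`.
* So Montgomery's conjecture is equivalent to: for every `κ` its bound holds for almost every perturbation.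
* Unconditionally the conjecture holds in full for almost every perturbation with `κ = 0`, and for the exponents
  `σ > (3+κ)/4` for almost every perturbation with `0 ≤ κ ≤ 1`.
* The range of `T` is optimal: for ALL real frequencies and `T = exp (N^{2σ-1+ε})` there are signs `b_n` with more than
  `N^B` large values.

Proof. The dual form of the bound is `∑_n |F(x_n)| ≤ N^ε (N ‖a‖₂ + N^s ‖a‖₁)` for all exponential sums
`F(x) = ∑_{t ≤ T} a_t e^{itx}`. For the mean over the perturbations: cut `[0, T]` in blocks of length `N^{1+κ}`;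
the blocks are almost orthogonal on each interval `[n, n + n^{-κ}]`, inside a block `F` is almost constant there
(Taylor expansion), and the square function of the blocks is bounded by Khintchine's inequality and the bound for
`T ≤ N^{1+κ}`. The deviation of `∑_n |F|` from its mean is at most `(N log T)^{1/2} ‖a‖₁` for ALL `a` at once,
outside a small set: symmetrization, the contraction principle for `|·|`, and a union bound over the extreme points.
The last part: Paley-Zygmund for random signs in groups, and averaging over the signs.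
-/

namespace Pool.Agent.Results.MP_ecd12e_nt.RandomPerturbations

open Finset MeasureTheory

/-- `D(t) = ∑_{n=N}^{2N} b_n e^{i t x_n}`; for `x_n = log n` this is the Dirichlet polynomial of the problem -/
noncomputable def D (x : ℕ → ℝ) (N : ℕ) (b : ℕ → ℂ) (t : ℝ) : ℂ :=
  ∑ n ∈ Icc N (2 * N), b n * Complex.exp (((t * x n : ℝ) : ℂ) * Complex.I)

/-- `W` consists of integers of `[0, T]` at which `|D| > N^σ` -/
def Large (x : ℕ → ℝ) (N : ℕ) (b : ℕ → ℂ) (σ T : ℝ) (W : Finset ℤ) : Prop :=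
  ∀ t ∈ W, 0 ≤ (t : ℝ) ∧ (t : ℝ) ≤ T ∧ (N : ℝ) ^ σ < ‖D x N b t‖

/-- Montgomery's bound for the frequencies `x`, for all exponents `σ > s` and all `N ≤ T ≤ N^A`. The conjecture (Q1)
is `∀ A, Montgomery (fun n => Real.log n) A (1 / 2)`. -/
def Montgomery (x : ℕ → ℝ) (A s : ℝ) : Prop :=
  ∀ σ : ℝ, s < σ → ∀ ε : ℝ, 0 < ε → ∃ C : ℝ, ∀ N : ℕ, 1 ≤ N →
    ∀ T : ℝ, (N : ℝ) ≤ T → T ≤ (N : ℝ) ^ A → ∀ b : ℕ → ℂ, (∀ n, ‖b n‖ ≤ 1) →
      ∀ W : Finset ℤ, Large x N b σ T W → (W.card : ℝ) ≤ C * (N : ℝ) ^ (2 - 2 * σ + ε)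

/-- Montgomery's bound for the frequencies `x`, for all exponents `σ > s` and all `T ≤ exp (N^(2σ-1-ε))` -/
def MontgomeryExp (x : ℕ → ℝ) (s : ℝ) : Prop :=
  ∀ σ : ℝ, s < σ → ∀ ε : ℝ, 0 < ε → ∃ C : ℝ, ∀ N : ℕ, 1 ≤ N →
    ∀ T : ℝ, T ≤ Real.exp ((N : ℝ) ^ (2 * σ - 1 - ε)) → ∀ b : ℕ → ℂ, (∀ n, ‖b n‖ ≤ 1) →
      ∀ W : Finset ℤ, Large x N b σ T W → (W.card : ℝ) ≤ C * (N : ℝ) ^ (2 - 2 * σ + ε)

/-- the frequencies `log (n + θ_n n^(-κ))` -/
noncomputable def perturbed (κ : ℝ) (θ : ℕ → unitInterval) (n : ℕ) : ℝ :=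
  Real.log ((n : ℝ) + (θ n : ℝ) * (n : ℝ) ^ (-κ))

/-- the law of a sequence of independent random variables with the uniform distribution on `[0, 1]` -/
noncomputable def P : Measure (ℕ → unitInterval) :=
  Measure.infinitePi (fun _ : ℕ => (volume : Measure unitInterval))

lemma montgomery_iff (x : ℕ → ℝ) (A s : ℝ) :
    Montgomery x A s ↔ Pool.Agent.P8H16.RF.Bound x A s := Iff.rfl

lemma montgomeryExp_iff (x : ℕ → ℝ) (s : ℝ) :
    MontgomeryExp x s ↔ Pool.Agent.P8H16.RF.BoundX x s := Iff.rfl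

/-- (1) For all `κ ≥ 0`, `s ≥ 1/2`: Montgomery's bound for the integers, `N ≤ T ≤ N^(1+κ)` and `σ > s`, is equivalent
to the bound for almost every sequence `n + θ_n n^(-κ)`, `T ≤ exp (N^(2σ-1-ε))` and `σ > s`, and to the bound for a
single such sequence, `N ≤ T ≤ N^(1+κ)` and `σ > s`.
(2) `T ≤ exp (N^(2σ-1-ε))` includes all powers: `MontgomeryExp x s` implies `Montgomery x A s` for all `A`.
(3) For almost every `θ` the bound holds in full (`σ > 1/2`) for `n + θ_n`.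
(4) For `0 ≤ κ ≤ 1` and almost every `θ` it holds for `n + θ_n n^(-κ)` and `σ > (3+κ)/4`.
(5) Montgomery's conjecture is equivalent to the full bound for almost every `n + θ_n n^(-κ)`, for every `κ ≥ 0`.
(6) For ALL real frequencies `x_n`, `1/2 < σ < 1`, `ε > 0` and `B`, and all large `N`, there are signs `b_n` with at
least `N^B` integers `0 ≤ t ≤ exp (N^(2σ-1+ε))` at which `|D(t)| > N^σ`. -/
theorem result :
    (∀ κ s : ℝ, 0 ≤ κ → 1 / 2 ≤ s →
      (Montgomery (fun n => Real.log n) (1 + κ) s ↔ ∀ᵐ θ ∂P, MontgomeryExp (perturbed κ θ) s) ∧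
      (Montgomery (fun n => Real.log n) (1 + κ) s ↔
        ∃ θ : ℕ → unitInterval, Montgomery (perturbed κ θ) (1 + κ) s)) ∧
    (∀ (x : ℕ → ℝ) (s : ℝ), 1 / 2 ≤ s → MontgomeryExp x s → ∀ A : ℝ, Montgomery x A s) ∧
    (∀ᵐ θ ∂P, MontgomeryExp (perturbed 0 θ) (1 / 2)) ∧
    (∀ κ : ℝ, 0 ≤ κ → κ ≤ 1 → ∀ᵐ θ ∂P, MontgomeryExp (perturbed κ θ) ((3 + κ) / 4)) ∧
    ((∀ A : ℝ, Montgomery (fun n => Real.log n) A (1 / 2)) ↔
      ∀ κ : ℝ, 0 ≤ κ → ∀ᵐ θ ∂P, MontgomeryExp (perturbed κ θ) (1 / 2)) ∧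
    (∀ (x : ℕ → ℝ) (σ ε B : ℝ), 1 / 2 < σ → σ < 1 → 0 < ε → ∃ N₀ : ℕ, ∀ N : ℕ, N₀ ≤ N →
      ∃ b : ℕ → ℂ, (∀ n, b n = 1 ∨ b n = -1) ∧ ∃ W : Finset ℤ,
        Large x N b σ (Real.exp ((N : ℝ) ^ (2 * σ - 1 + ε))) W ∧ (N : ℝ) ^ B ≤ (W.card : ℝ)) := by
  obtain ⟨h1, h2, h3, h4⟩ := Pool.Agent.P8H16.RF.final
  refine ⟨h1, fun x s hs h A => (Pool.Agent.P8H16.RF.gen3' x s hs).2 h A, h2, h3, h4, ?_⟩
  classical
  intro x σ ε B hσ hσ1 hε
  obtain ⟨N₀, hN₀⟩ := Pool.Agent.P8H16.RF.opt' x σ ε B hσ hσ1 hε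
  refine ⟨N₀, fun N hN => ?_⟩
  obtain ⟨b, hb, hc⟩ := hN₀ N hN
  refine ⟨b, hb, (((range (⌊Real.exp ((N : ℝ) ^ (2 * σ - 1 + ε))⌋₊ + 1)).filter
      (fun t : ℕ => (N : ℝ) ^ σ < ‖∑ n ∈ Icc N (2 * N), b n *
        Pool.Agent.P8H16.RF.e ((t : ℝ) * x n)‖))).map Nat.castEmbedding, ?_, ?_⟩
  · intro t ht
    rw [mem_map] at ht
    obtain ⟨m, hm, rfl⟩ := ht
    rw [mem_filter, mem_range] at hm
    obtain ⟨hm1, hm2⟩ := hm
    refine ⟨by simp, ?_, ?_⟩
    · have h5 : m ≤ ⌊Real.exp ((N : ℝ) ^ (2 * σ - 1 + ε))⌋₊ := by omega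
      have h6 := (Nat.le_floor_iff (Real.exp_pos _).le).1 h5
      simpa using h6
    · have h7 : (N : ℝ) ^ σ < ‖D x N b (m : ℝ)‖ := hm2
      simpa using h7
  · rw [card_map]
    exact hc

end Pool.Agent.Results.MP_ecd12e_nt.RandomPerturbations
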