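import Mathlib
import Pool.Agent.P8H75.SU.App2
set_option autoImplicit false

/-!
# Montgomery's large value conjecture and random supports

`D(t) = ∑_{N ≤ n ≤ 2N} b_n n^{it}`, `|b_n| ≤ 1`. We compare the conjecture with its analogue for
coefficients `b_n` supported on a random set `I` of `k` integers of `[N, 2N]`.

(1) All but a proportion `N^(-A)` of these sets `I` sample the exponential sums
`F(n) = ∑_{t < M} a_t n^{it}`, `M ≤ N^B`: for ALL complex `a_t`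
`∑_{n ∈ I} |F(n)| = k/(N+1) ∑_{N ≤ n ≤ 2N} |F(n)| + O((k log N)^(1/2) ∑ |a_t|)`.

(2) For `0 ≤ δ ≤ 1` the bound `|W| ≤ C N^(2-2σ+ε)` of the conjecture for all `σ > (1+δ)/2` is
equivalent to the COMPLETE analogue of the conjecture, `#{t ≤ T : |D(t)| > V} ≤ C N^ε k²/V²` for all
`V ≥ N^ε k^(1/2)` and all `|b_n| ≤ 1` supported on `I`, for almost all sets `I` of `k = ⌈N^(1-δ)⌉`
integers of `[N, 2N]`, and already for a proportion `N^(-B)` of these sets.

(3) So Montgomery's conjecture is equivalent to: for every `δ > 0` its analogue holds for a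
polynomially small proportion of the supports of `⌈N^(1-δ)⌉` elements.
-/

namespace Pool.Agent.Results.MP_ecd12e_nt.RandomSupportsEquivalence

open Finset

/-- `D(t) = ∑_{n=N}^{2N} b_n n^{it}` -/
noncomputable def D (N : ℕ) (b : ℕ → ℂ) (t : ℝ) : ℂ :=
  ∑ n ∈ Icc N (2 * N), b n * Complex.exp (((t * Real.log (n : ℝ) : ℝ) : ℂ) * Complex.I)

/-- the exponential sum `∑_{t < M} a_t n^{it}` -/
noncomputable def F (M : ℕ) (a : ℕ → ℂ) (n : ℕ) : ℂ :=
  ∑ t ∈ range M, a t * Complex.exp ((((t : ℝ) * Real.log (n : ℝ) : ℝ) : ℂ) * Complex.I)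

/-- the sets of `k` integers of `[N, 2N]` with the property `P` -/
def sets (N k : ℕ) (P : Finset ℕ → Prop) : Set (Finset ℕ) :=
  {I | I ⊆ Icc N (2 * N) ∧ I.card = k ∧ P I}

/-- the set `I` of `k` integers samples all sums `∑_{t < M} a_t n^{it}`, with the error
`C (k log N)^(1/2) ∑ |a_t|` -/
def Samples (N M : ℕ) (C : ℝ) (k : ℕ) (I : Finset ℕ) : Prop := ∀ a : ℕ → ℂ,
  abs ((∑ n ∈ I, ‖F M a n‖) - (k : ℝ) / ((N + 1 : ℕ) : ℝ) * ∑ n ∈ Icc N (2 * N), ‖F M a n‖) ≤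
    C * Real.sqrt (k * Real.log N) * ∑ t ∈ range M, ‖a t‖

/-- Montgomery's bound for the exponent `A` and all `σ > s`. The conjecture (Q1) is
`∀ A, LargeValues A (1 / 2)`. -/
def LargeValues (A s : ℝ) : Prop :=
  ∀ σ : ℝ, σ > s → ∀ ε : ℝ, ε > 0 → ∃ C : ℝ,
    ∀ N : ℕ, 1 ≤ N → ∀ T : ℝ, (N : ℝ) ≤ T → T ≤ (N : ℝ) ^ A →
    ∀ b : ℕ → ℂ, (∀ n, ‖b n‖ ≤ 1) →
    ∀ W : Finset ℤ, (∀ t ∈ W, 0 ≤ (t : ℝ) ∧ (t : ℝ) ≤ T ∧ (N : ℝ) ^ σ < ‖D N b t‖) →
      (W.card : ℝ) ≤ C * (N : ℝ) ^ (2 - 2 * σ + ε)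

open Classical in
/-- the number of the integers `t` with `0 ≤ t ≤ T` and `|D(t)| > V` -/
noncomputable def count (N : ℕ) (b : ℕ → ℂ) (V : ℝ) (T : ℕ) : ℝ :=
  (((range (T + 1)).filter (fun t : ℕ => V < ‖D N b t‖)).card : ℝ)

/-- **The analogue of the conjecture for coefficients supported on `I`**, for all large values
`V ≥ N^ε |I|^(1/2)` -/
def Holds (N T : ℕ) (ε C : ℝ) (I : Finset ℕ) : Prop := ∀ b : ℕ → ℂ, (∀ n, ‖b n‖ ≤ 1) →
  (∀ n, n ∉ I → b n = 0) → ∀ V : ℝ, (N : ℝ) ^ ε * Real.sqrt I.card ≤ V →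
    count N b V T ≤ C * (N : ℝ) ^ ε * (I.card : ℝ) ^ 2 / V ^ 2

/-- the size `⌈N^(1-δ)⌉` of the supports -/
noncomputable def size (δ : ℝ) (N : ℕ) : ℕ := ⌈(N : ℝ) ^ (1 - δ)⌉₊

/-- for every `B`, the analogue holds for all but a proportion `N^(-B)` of the supports -/
def AlmostAll (A δ : ℝ) : Prop := ∀ B ε : ℝ, 0 < ε → ∃ C : ℝ,
  ∀ N T : ℕ, 2 ≤ N → N ≤ T → (T : ℝ) ≤ (N : ℝ) ^ A →
    ((sets N (size δ N) (fun I => ¬ Holds N T ε C I)).ncard : ℝ) ≤
      (N : ℝ) ^ (-B) * ((N + 1).choose (size δ N) : ℕ)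

/-- for some `B`, the analogue holds for at least a proportion `N^(-B)` of the supports -/
def Some (A δ : ℝ) : Prop := ∀ ε : ℝ, 0 < ε → ∃ B C : ℝ,
  ∀ N T : ℕ, 2 ≤ N → N ≤ T → (T : ℝ) ≤ (N : ℝ) ^ A →
    (N : ℝ) ^ (-B) * ((N + 1).choose (size δ N) : ℕ) ≤
      ((sets N (size δ N) (fun I => Holds N T ε C I)).ncard : ℝ)

lemma ncard_sets (N k : ℕ) (P : Finset ℕ → Prop) [DecidablePred P] :
    (sets N k P).ncard = ((powersetCard k (Icc N (2 * N))).filter P).card := by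
  rw [← Set.ncard_coe_finset]
  congr 1
  ext I
  simp only [sets, Set.mem_ofPred_eq, coe_filter, mem_powersetCard]
  tauto

open Pool.Agent.P8H75.DS in
lemma large_iff (A δ : ℝ) : LargeValues A ((1 + δ) / 2) ↔ Pool.Agent.P8H75.SU.Ga A δ := by
  classical
  constructor
  · intro h σ hσ ε hε
    obtain ⟨C, hC⟩ := h σ hσ ε hε
    refine ⟨C, fun N T hN hNT hT b hb => ?_⟩
    have h1 := hC N (by omega) T (by exact_mod_cast hNT) hT b hb
      (((range (T + 1)).filter (fun t : ℕ => (N : ℝ) ^ σ < ‖Pool.Agent.P8H75.DS.D N b t‖)).map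
        Nat.castEmbedding) (by
        intro t ht
        rw [mem_map] at ht
        obtain ⟨s, hs, rfl⟩ := ht
        rw [mem_filter, mem_range] at hs
        refine ⟨?_, ?_, ?_⟩
        · simp
        · have : s ≤ T := by omega
          simpa using (by exact_mod_cast this : (s : ℝ) ≤ T)
        · have h2 : (N : ℝ) ^ σ < ‖D N b (s : ℕ)‖ := hs.2
          simpa using h2)
    rw [card_map] at h1
    exact h1
  · intro h σ hσ ε hε
    obtain ⟨C, hC⟩ := h σ hσ ε hε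
    refine ⟨max C 0 + 2, fun N hN T hNT hT b hb W hW => ?_⟩
    have hN0 : (0 : ℝ) < N := by exact_mod_cast hN
    have hpos : (0 : ℝ) < (N : ℝ) ^ (2 - 2 * σ + ε) := Real.rpow_pos_of_pos hN0 _
    have hT0 : 0 ≤ T := hN0.le.trans hNT
    have hsub : W ⊆ ((range (⌊T⌋₊ + 1)).filter
        (fun t : ℕ => (N : ℝ) ^ σ < ‖Pool.Agent.P8H75.DS.D N b t‖)).map Nat.castEmbedding := by
      intro t ht
      obtain ⟨h1, h2, h3⟩ := hW t ht
      have h4 : 0 ≤ t := by exact_mod_cast h1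
      obtain ⟨s, rfl⟩ := Int.eq_ofNat_of_zero_le h4
      rw [mem_map]
      refine ⟨s, ?_, rfl⟩
      rw [mem_filter, mem_range]
      refine ⟨?_, ?_⟩
      · have h5 : (s : ℝ) ≤ T := by simpa using h2
        have := Nat.le_floor h5
        omega
      · have e : (((s : ℕ) : ℤ) : ℝ) = (s : ℝ) := by simp
        have h6 : (N : ℝ) ^ σ < ‖D N b (((s : ℕ) : ℤ) : ℝ)‖ := h3
        rw [e] at h6
        exact h6
    have hcard := card_le_card hsub
    rw [card_map] at hcard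
    rcases Nat.lt_or_ge N 2 with h1 | h1
    · have hN1 : N = 1 := by omega
      subst hN1
      have hT1 : T ≤ 1 := by simpa using hT
      have h2 : ⌊T⌋₊ ≤ 1 := by
        have := Nat.floor_le hT0
        have h3 : ((⌊T⌋₊ : ℕ) : ℝ) ≤ 1 := this.trans hT1
        exact_mod_cast h3
      have h3 : W.card ≤ 2 := by
        refine hcard.trans ((card_filter_le _ _).trans ?_)
        rw [card_range]
        omega
      have h4 : (W.card : ℝ) ≤ 2 := by exact_mod_cast h3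
      have h5 : 0 ≤ max C 0 := le_max_right _ _
      simp only [Nat.cast_one, Real.one_rpow, mul_one]
      linarith
    · have h2 : N ≤ ⌊T⌋₊ := Nat.le_floor hNT
      have h3 : ((⌊T⌋₊ : ℕ) : ℝ) ≤ (N : ℝ) ^ A := (Nat.floor_le hT0).trans hT
      have h4 := hC N ⌊T⌋₊ h1 h2 h3 b hb
      have h5 : (W.card : ℝ) ≤ lv N b ((N : ℝ) ^ σ) (range (⌊T⌋₊ + 1)) := by
        unfold lv
        exact_mod_cast hcard
      refine h5.trans (h4.trans (mul_le_mul_of_nonneg_right ?_ hpos.le))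
      have := le_max_left C 0
      linarith

lemma all_iff (A δ : ℝ) : AlmostAll A δ ↔ Pool.Agent.P8H75.SU.Gb A δ := by
  classical
  unfold AlmostAll Pool.Agent.P8H75.SU.Gb
  simp_rw [ncard_sets]
  exact Iff.rfl

lemma some_iff (A δ : ℝ) : Some A δ ↔ Pool.Agent.P8H75.SU.Gc A δ := by
  classical
  unfold Some Pool.Agent.P8H75.SU.Gc
  simp_rw [ncard_sets]
  exact Iff.rfl

/-- **Montgomery's large value conjecture and random supports.**

(1) For all `A, B ≥ 0` there is `C` such that for `N ≥ 2`, `M ≤ N^B` and `1 ≤ k ≤ N + 1`, all but a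
proportion `N^(-A)` of the sets `I` of `k` integers of `[N, 2N]` sample all exponential sums
`F(n) = ∑_{t < M} a_t n^{it}`: for all complex `a_t`
`|∑_{n ∈ I} |F(n)| - k/(N+1) ∑_{N ≤ n ≤ 2N} |F(n)|| ≤ C (k log N)^(1/2) ∑ |a_t|`.

(2) For all `A` and `0 ≤ δ ≤ 1` the following are equivalent, for `T ≤ N^A` and all `ε > 0`:
`|W| ≤ C N^(2-2σ+ε)` for all `W` as in the problem and all `σ > (1+δ)/2`; for all but a proportion
`N^(-B)` (every `B`) of the sets `I` of `k = ⌈N^(1-δ)⌉` integers of `[N, 2N]`,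
`#{t ≤ T : |D(t)| > V} ≤ C N^ε k²/V²` for all `|b_n| ≤ 1` supported on `I` and all
`V ≥ N^ε k^(1/2)`; and the same for at least a proportion `N^(-B)` (some `B`) of the sets `I`.

(3) Montgomery's conjecture (Q1) is equivalent to: for all `A` and all `0 < δ ≤ 1` the last
statement holds. -/
theorem result :
    (∀ A B : ℝ, 0 ≤ A → 0 ≤ B → ∃ C : ℝ, ∀ N M : ℕ, 2 ≤ N → (M : ℝ) ≤ (N : ℝ) ^ B →
      ∀ k : ℕ, 1 ≤ k → k ≤ N + 1 →
        ((sets N k (fun I => ¬ Samples N M C k I)).ncard : ℝ) ≤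
          (N : ℝ) ^ (-A) * ((N + 1).choose k : ℕ)) ∧
    (∀ A δ : ℝ, 0 ≤ δ → δ ≤ 1 →
      (LargeValues A ((1 + δ) / 2) ↔ AlmostAll A δ) ∧
      (LargeValues A ((1 + δ) / 2) ↔ Some A δ)) ∧
    ((∀ A : ℝ, LargeValues A (1 / 2)) ↔ ∀ A δ : ℝ, 0 < δ → δ ≤ 1 → Some A δ) := by
  classical
  refine ⟨?_, ?_, ?_⟩
  · intro A B hA hB
    obtain ⟨C, -, hC⟩ := Pool.Agent.P8H75.SU.samp A B hA hB
    refine ⟨C, fun N M hN hM k hk hkN => ?_⟩
    rw [ncard_sets]
    exact hC N M hN hM k hk hkN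
  · intro A δ hδ hδ1
    rw [large_iff, all_iff, some_iff]
    have h1 := Pool.Agent.P8H75.SU.gb_of_ga A δ hδ hδ1
    have h2 := Pool.Agent.P8H75.SU.gc_of_gb A δ
    have h3 := Pool.Agent.P8H75.SU.ga_of_gc A δ hδ hδ1
    exact ⟨⟨h1, fun h => h3 (h2 h)⟩, ⟨fun h => h2 (h1 h), h3⟩⟩
  · have e : ∀ A : ℝ, LargeValues A (1 / 2) ↔ Pool.Agent.P8H75.SU.Ga A 0 := by
      intro A
      rw [← large_iff]
      norm_num
    constructor
    · intro h A δ hδ hδ1
      rw [some_iff]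
      exact (Pool.Agent.P8H75.SU.ga_zero A).1 ((e A).1 (h A)) δ hδ hδ1
    · intro h A
      rw [e]
      refine (Pool.Agent.P8H75.SU.ga_zero A).2 fun δ hδ hδ1 => ?_
      rw [← some_iff]
      exact h A δ hδ hδ1

end Pool.Agent.Results.MP_ecd12e_nt.RandomSupportsEquivalence
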