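import Mathlib
import Pool.Agent.P8H75.DS.C
set_option autoImplicit false

/-!
# Montgomery's large value conjecture and sparse random sets of integers

`D(t) = ∑_{N ≤ n ≤ 2N} b_n n^{it}`, `|b_n| ≤ 1`. For all but a proportion `N^(-A)` of the sets `I` of
`k` integers of `[0, M)`, `M ≤ N^B`, the following holds for ALL coefficients, with `τ = k/M`, up to
constants and in both directions: `I` contains the proportion `τ` of the integers `t` with
`|D(t)| > V`, up to an error `(log N)² N² V^(-2)`, and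
`∑_{t ∈ I} |D(t)|^q = τ ∑_{t < M} |D(t)|^q + O((log N)³ N^q)` for `q ≥ 2`. The errors are exactly the
bound `N² V^(-2) = N^(2-2σ)` of Montgomery's conjecture at `V = N^σ` and the first term of its
consequence `∑_t |D(t)|^q ≤ N^ε (N^q + N^(q/2) T)`, up to logarithms.

Consequently, for `T ≤ N^A` and `0 ≤ δ ≤ 1`, the bound `N^(δ + 2 - 2σ + ε)` for the number of
`t ∈ [0,T]` with `|D(t)| > N^σ` is equivalent to Montgomery's bound `N^(2-2σ+ε)` inside almost all
sets of integers of density `N^(-δ)`, and already to this bound inside a proportion `N^(-B)` of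
these sets. So Montgomery's conjecture is equivalent to: for every `δ > 0` it holds inside a
polynomially small proportion of the sets of integers of density `N^(-δ)`.
-/

namespace Pool.Agent.Results.MP_ecd12e_nt.SparseRandomSets

open Finset

/-- `D(t) = ∑_{n=N}^{2N} b_n n^{it}` -/
noncomputable def D (N : ℕ) (b : ℕ → ℂ) (t : ℝ) : ℂ :=
  ∑ n ∈ Icc N (2 * N), b n * Complex.exp (((t * Real.log (n : ℝ) : ℝ) : ℂ) * Complex.I)

open Classical in
/-- the number of `t ∈ I` with `|D(t)| > V` -/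
noncomputable def count (N : ℕ) (b : ℕ → ℂ) (V : ℝ) (I : Finset ℕ) : ℝ :=
  ((I.filter (fun t : ℕ => V < ‖D N b t‖)).card : ℝ)

/-- `I` samples `|D(t)|`, `0 ≤ t < M`, with the proportion `τ`, for all coefficients at once -/
def Samples (N M : ℕ) (C τ : ℝ) (I : Finset ℕ) : Prop :=
  ∀ b : ℕ → ℂ, (∀ n ∈ Icc N (2 * N), ‖b n‖ ≤ 1) →
    (∀ V : ℝ, 1 ≤ V →
      count N b V I ≤
          C * (τ * count N b (V / 4) (range M) + Real.log N ^ 2 * (N : ℝ) ^ 2 / V ^ 2) ∧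
        τ * count N b V (range M) ≤
          C * (count N b (V / 4) I + Real.log N ^ 2 * (N : ℝ) ^ 2 / V ^ 2)) ∧
    (∀ q : ℝ, 2 ≤ q →
      ∑ t ∈ I, ‖D N b (t : ℕ)‖ ^ q ≤
          C ^ q * (τ * (∑ t ∈ range M, ‖D N b (t : ℕ)‖ ^ q) + Real.log N ^ 3 * (N : ℝ) ^ q) ∧
        τ * (∑ t ∈ range M, ‖D N b (t : ℕ)‖ ^ q) ≤
          C ^ q * ((∑ t ∈ I, ‖D N b (t : ℕ)‖ ^ q) + Real.log N ^ 3 * (N : ℝ) ^ q))

/-- Montgomery's bound for the exponent `A`, with the additional loss `N^δ`. The conjecture (Q1) is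
`∀ A, LargeValues A 0`. -/
def LargeValues (A δ : ℝ) : Prop :=
  ∀ σ : ℝ, σ > 1 / 2 → ∀ ε : ℝ, ε > 0 → ∃ C : ℝ,
    ∀ N : ℕ, 1 ≤ N → ∀ T : ℝ, (N : ℝ) ≤ T → T ≤ (N : ℝ) ^ A →
    ∀ b : ℕ → ℂ, (∀ n, ‖b n‖ ≤ 1) →
    ∀ W : Finset ℤ, (∀ t ∈ W, 0 ≤ (t : ℝ) ∧ (t : ℝ) ≤ T ∧ (N : ℝ) ^ σ < ‖D N b t‖) →
      (W.card : ℝ) ≤ C * (N : ℝ) ^ (δ + (2 - 2 * σ) + ε)

/-- Montgomery's bound (without loss) for the large values inside the set `I` -/
def Holds (N : ℕ) (σ ε C : ℝ) (I : Finset ℕ) : Prop := ∀ b : ℕ → ℂ, (∀ n, ‖b n‖ ≤ 1) →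
  count N b ((N : ℝ) ^ σ) I ≤ C * (N : ℝ) ^ (2 - 2 * σ + ε)

/-- the size `⌈(T + 1) N^(-δ)⌉` of the sets of density `N^(-δ)` in `{0, …, T}` -/
noncomputable def size (δ : ℝ) (N T : ℕ) : ℕ := ⌈((T : ℝ) + 1) * (N : ℝ) ^ (-δ)⌉₊

/-- for every `B`, Montgomery's bound holds inside all but a proportion `N^(-B)` of the sets of
density `N^(-δ)` -/
def AlmostAll (A δ : ℝ) : Prop := ∀ B σ : ℝ, 1 / 2 < σ → ∀ ε : ℝ, 0 < ε → ∃ C : ℝ,
  ∀ N T : ℕ, 2 ≤ N → N ≤ T → (T : ℝ) ≤ (N : ℝ) ^ A →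
    ({I : Finset ℕ | I ⊆ range (T + 1) ∧ I.card = size δ N T ∧ ¬ Holds N σ ε C I}.ncard : ℝ) ≤
      (N : ℝ) ^ (-B) * ((T + 1).choose (size δ N T) : ℕ)

/-- for some `B`, Montgomery's bound holds inside at least a proportion `N^(-B)` of the sets of
density `N^(-δ)` -/
def Some (A δ : ℝ) : Prop := ∀ σ : ℝ, 1 / 2 < σ → ∀ ε : ℝ, 0 < ε → ∃ B C : ℝ,
  ∀ N T : ℕ, 2 ≤ N → N ≤ T → (T : ℝ) ≤ (N : ℝ) ^ A →
    (N : ℝ) ^ (-B) * ((T + 1).choose (size δ N T) : ℕ) ≤
      ({I : Finset ℕ | I ⊆ range (T + 1) ∧ I.card = size δ N T ∧ Holds N σ ε C I}.ncard : ℝ)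

lemma ncard_filter {α : Type*} [DecidableEq α] (J : Finset α) (k : ℕ) (P : Finset α → Prop)
    [DecidablePred P] :
    {I : Finset α | I ⊆ J ∧ I.card = k ∧ P I}.ncard = ((powersetCard k J).filter P).card := by
  rw [← Set.ncard_coe_finset]
  congr 1
  ext I
  simp only [Set.mem_ofPred_eq, coe_filter, mem_powersetCard]
  tauto

open Pool.Agent.P8H75.DS in
lemma count_eq (N : ℕ) (b : ℕ → ℂ) (V : ℝ) (I : Finset ℕ) : count N b V I = lv N b V I := rfl

open Pool.Agent.P8H75.DS in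
lemma large_iff (A δ : ℝ) : LargeValues A δ ↔ Fa A δ := by
  classical
  constructor
  · intro h σ hσ ε hε
    obtain ⟨C, hC⟩ := h σ hσ ε hε
    refine ⟨C, fun N T hN hNT hT b hb => ?_⟩
    have h1 := hC N (by omega) T (by exact_mod_cast hNT) hT b hb
      (((range (T + 1)).filter (fun t : ℕ => (N : ℝ) ^ σ < ‖Pool.Agent.P8H75.DS.D N b t‖)).map
        Nat.castEmbedding) (by
        intro t ht
        rw [mem_map] at ht
        obtain ⟨s, hs, rfl⟩ := ht
        rw [mem_filter, mem_range] at hs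
        refine ⟨?_, ?_, ?_⟩
        · simp
        · have : s ≤ T := by omega
          simpa using (by exact_mod_cast this : (s : ℝ) ≤ T)
        · have h2 : (N : ℝ) ^ σ < ‖D N b (s : ℕ)‖ := hs.2
          simpa using h2)
    rw [card_map] at h1
    exact h1
  · intro h σ hσ ε hε
    obtain ⟨C, hC⟩ := h σ hσ ε hε
    refine ⟨max C 0 + 2, fun N hN T hNT hT b hb W hW => ?_⟩
    have hN0 : (0 : ℝ) < N := by exact_mod_cast hN
    have hpos : (0 : ℝ) < (N : ℝ) ^ (δ + (2 - 2 * σ) + ε) := Real.rpow_pos_of_pos hN0 _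
    have hT0 : 0 ≤ T := hN0.le.trans hNT
    have hsub : W ⊆ ((range (⌊T⌋₊ + 1)).filter
        (fun t : ℕ => (N : ℝ) ^ σ < ‖Pool.Agent.P8H75.DS.D N b t‖)).map Nat.castEmbedding := by
      intro t ht
      obtain ⟨h1, h2, h3⟩ := hW t ht
      have h4 : 0 ≤ t := by exact_mod_cast h1
      obtain ⟨s, rfl⟩ := Int.eq_ofNat_of_zero_le h4
      rw [mem_map]
      refine ⟨s, ?_, rfl⟩
      rw [mem_filter, mem_range]
      refine ⟨?_, ?_⟩
      · have h5 : (s : ℝ) ≤ T := by simpa using h2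
        have := Nat.le_floor h5
        omega
      · have e : (((s : ℕ) : ℤ) : ℝ) = (s : ℝ) := by simp
        have h6 : (N : ℝ) ^ σ < ‖D N b (((s : ℕ) : ℤ) : ℝ)‖ := h3
        rw [e] at h6
        exact h6
    have hcard := card_le_card hsub
    rw [card_map] at hcard
    rcases Nat.lt_or_ge N 2 with h1 | h1
    · have hN1 : N = 1 := by omega
      subst hN1
      have hT1 : T ≤ 1 := by simpa using hT
      have h2 : ⌊T⌋₊ ≤ 1 := by
        have := Nat.floor_le hT0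
        have h3 : ((⌊T⌋₊ : ℕ) : ℝ) ≤ 1 := this.trans hT1
        exact_mod_cast h3
      have h3 : W.card ≤ 2 := by
        refine hcard.trans ((card_filter_le _ _).trans ?_)
        rw [card_range]
        omega
      have h4 : (W.card : ℝ) ≤ 2 := by exact_mod_cast h3
      have h5 : 0 ≤ max C 0 := le_max_right _ _
      simp only [Nat.cast_one, Real.one_rpow, mul_one]
      linarith
    · have h2 : N ≤ ⌊T⌋₊ := Nat.le_floor hNT
      have h3 : ((⌊T⌋₊ : ℕ) : ℝ) ≤ (N : ℝ) ^ A := (Nat.floor_le hT0).trans hT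
      have h4 := hC N ⌊T⌋₊ h1 h2 h3 b hb
      have h5 : (W.card : ℝ) ≤ lv N b ((N : ℝ) ^ σ) (range (⌊T⌋₊ + 1)) := by
        unfold lv
        exact_mod_cast hcard
      refine h5.trans (h4.trans (mul_le_mul_of_nonneg_right ?_ hpos.le))
      have := le_max_left C 0
      linarith

open Pool.Agent.P8H75.DS in
lemma all_iff (A δ : ℝ) : AlmostAll A δ ↔ Fb A δ := by
  classical
  unfold AlmostAll Fb
  simp_rw [ncard_filter]
  exact Iff.rfl

open Pool.Agent.P8H75.DS in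
lemma some_iff (A δ : ℝ) : Some A δ ↔ Fc A δ := by
  classical
  unfold Some Fc
  simp_rw [ncard_filter]
  exact Iff.rfl

open Pool.Agent.P8H75.DS in
/-- **Montgomery's large value conjecture and sparse random sets of integers.**

(1) For all `A, B` there is `C` such that for `N ≥ 2`, `M ≤ N^B` and `1 ≤ k ≤ M`, all but a
proportion `N^(-A)` of the sets `I` of `k` integers of `[0, M)` sample all `D` with `|b_n| ≤ 1` with
the proportion `τ = k/M`: for all `V ≥ 1`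
`#{t ∈ I : |D(t)| > V} ≤ C (τ #{t < M : |D(t)| > V/4} + (log N)² N² / V²)` and
`τ #{t < M : |D(t)| > V} ≤ C (#{t ∈ I : |D(t)| > V/4} + (log N)² N² / V²)`, and similarly for the sums
of `|D(t)|^q`, `q ≥ 2`, with the error `(log N)³ N^q`.

(2) For all `A` and `0 ≤ δ ≤ 1` the following are equivalent, for `T ≤ N^A`, all `σ > 1/2`, `ε > 0`:
`|W| ≤ C N^(δ + 2 - 2σ + ε)` for all `W` as in the problem; Montgomery's bound `C N^(2-2σ+ε)` inside
all but a proportion `N^(-B)` of the sets of `⌈(T+1) N^(-δ)⌉` integers of `[0,T]`, for all `B`; and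
Montgomery's bound inside at least a proportion `N^(-B)` of these sets, for some `B`.

(3) Montgomery's conjecture (Q1) is equivalent to: for all `A` and all `0 < δ ≤ 1`, Montgomery's
bound holds inside at least a proportion `N^(-B)` of the sets of `⌈(T+1) N^(-δ)⌉` integers. -/
theorem result :
    (∀ A B : ℝ, 0 ≤ A → 0 ≤ B → ∃ C : ℝ, ∀ N M : ℕ, 2 ≤ N → (M : ℝ) ≤ (N : ℝ) ^ B →
      ∀ k : ℕ, 1 ≤ k → k ≤ M →
        ({I : Finset ℕ | I ⊆ range M ∧ I.card = k ∧ ¬ Samples N M C (k / M) I}.ncard : ℝ) ≤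
          (N : ℝ) ^ (-A) * (M.choose k : ℕ)) ∧
    (∀ A δ : ℝ, 0 ≤ δ → δ ≤ 1 →
      (LargeValues A δ ↔ AlmostAll A δ) ∧ (LargeValues A δ ↔ Some A δ)) ∧
    ((∀ A : ℝ, LargeValues A 0) ↔ ∀ A δ : ℝ, 0 < δ → δ ≤ 1 → Some A δ) := by
  classical
  refine ⟨?_, ?_, ?_⟩
  · intro A B hA hB
    obtain ⟨C, -, hC⟩ := main A B hA hB
    refine ⟨C, fun N M hN hM k hk hkM => ?_⟩
    rw [ncard_filter]
    exact hC N M hN hM k hk hkM
  · intro A δ hδ hδ1
    rw [large_iff, all_iff, some_iff]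
    have h1 := fb_of_fa A δ hδ hδ1
    have h2 := fc_of_fb A δ
    have h3 := fa_of_fc A δ hδ hδ1
    exact ⟨⟨h1, fun h => h3 (h2 h)⟩, ⟨fun h => h2 (h1 h), h3⟩⟩
  · constructor
    · intro h A δ hδ hδ1
      rw [some_iff]
      exact (fa_zero A).1 ((large_iff A 0).1 (h A)) δ hδ hδ1
    · intro h A
      rw [large_iff]
      refine (fa_zero A).2 fun δ hδ hδ1 => ?_
      rw [← some_iff]
      exact h A δ hδ hδ1

end Pool.Agent.Results.MP_ecd12e_nt.SparseRandomSets
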